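import Pool.Agent.X156.CC.Lagr

/-!
# The face of the anti-blocker at a vertex spans
-/

set_option autoImplicit false

open Matrix
open scoped ComplexOrder MatrixOrder

namespace Pool.Agent.X156.CC

variable {n : ℕ}

/-- the rank two (or less) Hermitian matrix `ξ v* + v ξ*` -/
def two (ξ v : Fin n → ℂ) : H n :=
  mk (vecMulVec ξ (star v) + vecMulVec v (star ξ)) (by
    unfold IsHermitian
    rw [conjTranspose_add, conjTranspose_vecMulVec, conjTranspose_vecMulVec, star_star, star_star,
      add_comm])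

theorem tr_two (ξ v : Fin n → ℂ) (Z : H n) (h : (Z : Mt n) *ᵥ ξ = 0) : tr (two ξ v) Z = 0 := by
  unfold tr two
  rw [coe_mk, Matrix.add_mul, Matrix.trace_add, vecMulVec_mul, vecMulVec_mul, trace_vecMulVec,
    trace_vecMulVec]
  have h1 : star ξ ᵥ* (Z : Mt n) = 0 := by
    have := congrArg star h
    rwa [star_mulVec, herm Z, star_zero] at this
  have h2 : ξ ⬝ᵥ (star v ᵥ* (Z : Mt n)) = star v ⬝ᵥ ((Z : Mt n) *ᵥ ξ) := by
    rw [dotProduct_comm, dotProduct_mulVec]
  rw [h1, h2, h]
  simp

theorem comp_two {P : H n} {ξ v : Fin n → ℂ} (hξ : (P : Mt n) *ᵥ ξ = ξ)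
    (hv : (P : Mt n) *ᵥ v = v) : comp P (two ξ v) = two ξ v := by
  have hξ' : star ξ ᵥ* (P : Mt n) = star ξ := by
    have := congrArg star hξ
    rwa [star_mulVec, herm P] at this
  have hv' : star v ᵥ* (P : Mt n) = star v := by
    have := congrArg star hv
    rwa [star_mulVec, herm P] at this
  apply Subtype.ext
  rw [comp_coe]
  unfold two
  rw [coe_mk, Matrix.mul_add, Matrix.add_mul, mul_vecMulVec, mul_vecMulVec, vecMulVec_mul,
    vecMulVec_mul, hξ, hv, hξ', hv']

theorem eq_zero_of_two {ξ u : Fin n → ℂ} (h1 : two ξ u = 0) (h2 : two ξ (Complex.I • u) = 0) :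
    ξ = 0 ∨ u = 0 := by
  have e1 := congrArg Subtype.val h1
  have e2 := congrArg Subtype.val h2
  unfold two at e1 e2
  change vecMulVec ξ (star u) + vecMulVec u (star ξ) = 0 at e1
  change vecMulVec ξ (star (Complex.I • u)) + vecMulVec (Complex.I • u) (star ξ) = 0 at e2
  by_contra hcon
  rw [not_or] at hcon
  obtain ⟨i, hi⟩ := Function.ne_iff.1 hcon.1
  obtain ⟨j, hj⟩ := Function.ne_iff.1 hcon.2
  have f1 := congrFun (congrFun e1 i) j
  have f2 := congrFun (congrFun e2 i) j
  simp only [Matrix.add_apply, vecMulVec_apply, Pi.star_apply, Pi.smul_apply, smul_eq_mul,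
    star_mul', Complex.star_def, Complex.conj_I, Matrix.zero_apply] at f1 f2
  have f3 : ξ i * (starRingEnd ℂ) (u j) = 0 := by
    have f4 : Complex.I * (2 * (ξ i * (starRingEnd ℂ) (u j))) = 0 := by
      linear_combination Complex.I * f1 - f2
    have f5 := (mul_eq_zero.1 f4).resolve_left Complex.I_ne_zero
    exact (mul_eq_zero.1 f5).resolve_left two_ne_zero
  rcases mul_eq_zero.1 f3 with h | h
  · exact hi h
  · exact hj ((map_eq_zero _).1 h)

/-- the face, restricted to the support of the corner -/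
def face (C : Set (H n)) (P X : H n) : Set (H n) :=
  {Z | Pos Z ∧ comp P Z = Z ∧ (∀ A ∈ C, tr A Z ≤ 1) ∧ tr X Z = 1}

/-- The main dual argument: a matrix orthogonal to the face and to the positive matrices that
vanish at `X` is zero. -/
theorem eq_zero_of_orth {C : Set (H n)} (hC : IsCorner C) {P : H n} {c : ℝ} (hc : 0 < c)
    (hP : (P : Mt n) * (P : Mt n) = P) (hcP : c • P ∈ C)
    (hPA : ∀ A ∈ C, (P : Mt n) * (A : Mt n) = A) {X : H n} (hX : X ∈ C)
    (hvert : {X' | ∀ Y α, Supports Y α C {X} → tr X' Y = α} = {X}) {D : H n}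
    (hD : comp P D = D) (h1 : ∀ Z ∈ face C P X, tr D Z = 0)
    (h2 : ∀ W, Pos W → comp P W = W → (X : Mt n) * (W : Mt n) = 0 → tr D W = 0) : D = 0 := by
  have key : ∀ Y : H n, (∀ A ∈ C, tr A Y ≤ tr X Y) → tr D Y = 0 := by
    intro Y hY
    obtain ⟨Yp, W, hYp, hW, hPY, hPW, hdec, hXW, hle, heq⟩ :=
      decompose hC hc hP hcP hPA hX hY
    have e1 : tr D Y = tr D Yp - tr D W := by
      rw [← tr_sub_right, ← hdec, ← tr_comp, hD]
    rw [e1, h2 W hW hPW hXW, sub_zero]
    have hm : 0 ≤ tr X Y := by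
      have := hY 0 hC.zero_mem
      rwa [tr_zero_left] at this
    rcases eq_or_lt_of_le hm with h0 | h0
    · -- `Yp = 0`
      have h3 := hle _ hcP
      rw [← h0, tr_smul_left] at h3
      have h4 : tr P Yp = 0 := by
        apply le_antisymm _ (tr_nonneg (pos_of_idem hP) hYp)
        by_contra hcon
        push Not at hcon
        have := mul_pos hc hcon
        linarith
      have h5 := mul_eq_zero_of_tr (pos_of_idem hP) hYp h4
      have h6 : Yp = 0 := by
        apply Subtype.ext
        rw [← left_of_comp hP hPY, h5]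
        rfl
      rw [h6, tr_zero_right]
    · have h3 : (tr X Y)⁻¹ • Yp ∈ face C P X := by
        refine ⟨hYp.smul (inv_nonneg.2 hm), by rw [map_smul, hPY], fun A hA => ?_, ?_⟩
        · rw [tr_smul_right, inv_mul_le_iff₀ h0, mul_one]
          exact hle A hA
        · rw [tr_smul_right, heq, inv_mul_cancel₀ h0.ne']
      have h4 := h1 _ h3
      rw [tr_smul_right] at h4
      exact (mul_eq_zero.1 h4).resolve_left (inv_ne_zero h0.ne')
  have hmem : X + D ∈ {X' | ∀ Y α, Supports Y α C {X} → tr X' Y = α} := by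
    intro Y α hs
    have hXY : tr X Y = α := hs.2 X rfl
    have h3 := key Y (fun A hA => by rw [hXY]; exact hs.1 A hA)
    rw [tr_add_left, hXY, h3, add_zero]
  rw [hvert] at hmem
  have h4 : X + D = X := hmem
  exact left_eq_add.1 h4.symm

/-- The restricted face contains an element which is positive definite on the support. -/
theorem exists_definite {C : Set (H n)} (hC : IsCorner C) {P : H n} {c : ℝ} (hc : 0 < c)
    (hP : (P : Mt n) * (P : Mt n) = P) (hcP : c • P ∈ C)
    (hPA : ∀ A ∈ C, (P : Mt n) * (A : Mt n) = A) {X : H n} (hX : X ∈ C) (hX0 : X ≠ 0)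
    (hvert : {X' | ∀ Y α, Supports Y α C {X} → tr X' Y = α} = {X}) :
    ∃ Z0 ∈ face C P X, ∃ δ : ℝ, 0 < δ ∧ Pos (Z0 - δ • P) := by
  have hPX := hPA X hX
  -- the face is nonempty
  have hne : (face C P X).Nonempty := by
    by_contra hcon
    rw [Set.not_nonempty_iff_eq_empty] at hcon
    apply hX0
    refine eq_zero_of_orth hC hc hP hcP hPA hX hvert (comp_eq_of_left hPX) ?_ ?_
    · rw [hcon]
      intro Z hZ
      exact absurd hZ (Set.notMem_empty Z)
    · intro W _ _ hXW
      unfold tr
      rw [hXW]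
      simp
  -- an element with least kernel
  let S : Set ℕ := kd '' (face C P X)
  obtain ⟨Z0, hZ0, hk⟩ := Nat.sInf_mem (s := S) (hne.image _)
  have hmin : ∀ Z ∈ face C P X, kd Z0 ≤ kd Z := fun Z hZ => by
    rw [hk]
    exact Nat.sInf_le ⟨Z, hZ, rfl⟩
  have hdef : ∀ ξ : Fin n → ℂ, (P : Mt n) *ᵥ ξ = ξ → (Z0 : Mt n) *ᵥ ξ = 0 → ξ = 0 := by
    intro ξ hPξ hZξ
    by_contra hξ
    by_cases hall : ∀ Z ∈ face C P X, (Z : Mt n) *ᵥ ξ = 0
    · -- then `X = 0`
      obtain ⟨w, hw⟩ : ∃ w, (X : Mt n) *ᵥ w ≠ 0 := by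
        by_contra hcon
        push Not at hcon
        apply hX0
        apply Subtype.ext
        refine Matrix.ext_of_mulVec_single fun i => ?_
        rw [hcon]
        exact (zero_mulVec _).symm
      set u := (X : Mt n) *ᵥ w with hu
      have hPu : (P : Mt n) *ᵥ u = u := by rw [hu, mulVec_mulVec, hPX]
      have htwo : ∀ v : Fin n → ℂ, (∃ a : ℂ, v = a • u) → two ξ v = 0 := by
        rintro v ⟨a, rfl⟩
        have hPv : (P : Mt n) *ᵥ (a • u) = a • u := by rw [mulVec_smul, hPu]
        refine eq_zero_of_orth hC hc hP hcP hPA hX hvert (comp_two hPξ hPv) ?_ ?_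
        · intro Z hZ
          exact tr_two ξ _ Z (hall Z hZ)
        · intro W _ _ hXW
          have hWX : (W : Mt n) * (X : Mt n) = 0 := by
            have := congrArg conjTranspose hXW
            rwa [conjTranspose_mul, herm W, herm X, conjTranspose_zero] at this
          have hWv : (W : Mt n) *ᵥ (a • u) = 0 := by
            rw [mulVec_smul, hu, mulVec_mulVec, hWX, zero_mulVec, smul_zero]
          have hsym : two ξ (a • u) = two (a • u) ξ := by
            apply Subtype.ext
            unfold two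
            rw [coe_mk, coe_mk, add_comm]
          rw [hsym]
          exact tr_two _ _ W hWv
      rcases eq_zero_of_two (htwo u ⟨1, by rw [one_smul]⟩) (htwo _ ⟨Complex.I, rfl⟩) with h | h
      · exact hξ h
      · exact hw h
    · push Not at hall
      obtain ⟨Z1, hZ1, hne1⟩ := hall
      have hZ2 : (1 / 2 : ℝ) • Z0 + (1 / 2 : ℝ) • Z1 ∈ face C P X := by
        refine ⟨(hZ0.1.smul (by norm_num)).add (hZ1.1.smul (by norm_num)), ?_, fun A hA => ?_, ?_⟩
        · rw [map_add, map_smul, map_smul, hZ0.2.1, hZ1.2.1]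
        · rw [tr_add_right, tr_smul_right, tr_smul_right]
          have := hZ0.2.2.1 A hA
          have := hZ1.2.2.1 A hA
          linarith
        · rw [tr_add_right, tr_smul_right, tr_smul_right, hZ0.2.2.2, hZ1.2.2.2]
          norm_num
      have hlt : LinearMap.ker (mulVecLin ((((1 / 2 : ℝ) • Z0 + (1 / 2 : ℝ) • Z1 : H n)) : Mt n)) <
          LinearMap.ker (mulVecLin (Z0 : Mt n)) := by
        rw [SetLike.lt_iff_le_and_exists]
        refine ⟨fun x hx => ?_, ξ, mem_ker.2 hZξ, fun hx => ?_⟩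
        · rw [mem_ker] at hx ⊢
          exact (ker_of_sum hZ0.1 hZ1.1 (by norm_num) (by norm_num) hx).1
        · rw [mem_ker] at hx
          exact hne1 (ker_of_sum hZ0.1 hZ1.1 (by norm_num) (by norm_num) hx).2
      have h1 := Submodule.finrank_lt_finrank_of_lt hlt
      have h2 := hmin _ hZ2
      unfold kd at h2
      omega
  -- the support of `Z0` is `P`
  obtain ⟨P0, δ, hδ, hP0, hPZ, hle⟩ := exists_supp hZ0.1
  have hP0pos := pos_of_idem hP0
  have hPZ0 : (P : Mt n) * (Z0 : Mt n) = Z0 := left_of_comp hP hZ0.2.1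
  have hZ0P := mul_right_of_left hPZ0
  have hZ0P0 := mul_right_of_left hPZ
  have hP0P : (P0 : Mt n) * (P : Mt n) = P0 := by
    apply mul_eq_of_ker hP
    intro x hx
    apply ker_of_le hP0pos hδ hle
    rw [← hZ0P, ← mulVec_mulVec, hx, mulVec_zero]
  have hPP0 : (P : Mt n) * (P0 : Mt n) = P0 := by
    have := congrArg conjTranspose hP0P
    rwa [conjTranspose_mul, herm P, herm P0] at this
  have hPeq : P = P0 := by
    apply Subtype.ext
    apply Matrix.ext_of_mulVec_single
    intro i
    set e : Fin n → ℂ := Pi.single i 1 with he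
    have h1 := hdef ((P : Mt n) *ᵥ e - (P0 : Mt n) *ᵥ e) (by
      rw [mulVec_sub, mulVec_mulVec, mulVec_mulVec, hP, hPP0]) (by
      rw [mulVec_sub, mulVec_mulVec, mulVec_mulVec, hZ0P, hZ0P0, sub_self])
    exact sub_eq_zero.1 h1
  exact ⟨Z0, hZ0, δ, hδ, by rw [hPeq]; exact hle⟩

/-- **The face of the anti-blocker at a nonzero vertex spans the space.** -/
theorem eq_zero_of_face {C : Set (H n)} (hC : IsCorner C) {X : H n} (hX : X ∈ C) (hX0 : X ≠ 0)
    (hvert : {X' | ∀ Y α, Supports Y α C {X} → tr X' Y = α} = {X}) {D : H n}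
    (hD : ∀ Z ∈ antiblocker C, tr X Z = 1 → tr D Z = 0) : D = 0 := by
  obtain ⟨P, c, hc, hP, hcP, hPA⟩ := exists_maxProj hC
  obtain ⟨Z0, hZ0, δ, hδ, hle⟩ := exists_definite hC hc hP hcP hPA hX hX0 hvert
  have hPpos := pos_of_idem hP
  have hcompA : ∀ A ∈ C, comp P A = A := fun A hA => comp_eq_of_left (hPA A hA)
  -- the complementary projection
  let one : H n := mk 1 isHermitian_one
  let Q : H n := one - P
  have hQcoe : (Q : Mt n) = 1 - (P : Mt n) := rfl
  have hQ : (Q : Mt n) * (Q : Mt n) = Q := by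
    have h : (1 - (P : Mt n)) * (1 - (P : Mt n)) =
        1 - (P : Mt n) - (P : Mt n) + (P : Mt n) * (P : Mt n) := by noncomm_ring
    rw [hQcoe, h, hP]
    abel
  have hQpos := pos_of_idem hQ
  have hQcomp : comp P Q = 0 := by
    apply Subtype.ext
    rw [comp_coe, hQcoe, Matrix.mul_sub, Matrix.mul_one, hP, sub_self, Matrix.zero_mul]
    rfl
  have hbase : ∀ A ∈ C, tr A (Z0 + Q) = tr A Z0 := by
    intro A hA
    rw [tr_add_right]
    have : tr A Q = 0 := by
      rw [← hcompA A hA, tr_comp, hQcomp, tr_zero_right]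
    rw [this, add_zero]
  have hmemQ : Z0 + Q ∈ antiblocker C := ⟨hZ0.1.add hQpos, fun A hA => by
    rw [hbase A hA]; exact hZ0.2.2.1 A hA⟩
  have hDQ : tr D (Z0 + Q) = 0 := hD _ hmemQ (by rw [hbase X hX, hZ0.2.2.2])
  -- the matrices with zero compression
  have hB : ∀ B, comp P B = 0 → tr D B = 0 := by
    intro B hB
    set δ' := min δ 1 with hδ'
    have hδ'pos : 0 < δ' := lt_min hδ one_pos
    obtain ⟨s, hs, _, h1⟩ := exists_bound (herm B)
    have hεpos : 0 < δ' / s := by positivity
    have hpos : Pos (Z0 + Q + (δ' / s) • B) := by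
      have h2 : Z0 + Q + (δ' / s) • B = ((Z0 - δ • P) + (δ - δ') • P + (1 - δ') • Q) +
          (δ' / s) • mk (s • (1 : Mt n) + (B : Mt n)) h1.1 := by
        have h3 : (mk (s • (1 : Mt n) + (B : Mt n)) h1.1 : H n) = s • one + B := rfl
        have h4 : one = P + Q := by
          simp only [Q]
          abel
        rw [h3, smul_add, smul_smul, div_mul_cancel₀ _ hs.ne', h4]
        module
      rw [h2]
      refine Pos.add (Pos.add (Pos.add hle (hPpos.smul ?_)) (hQpos.smul ?_)) (Pos.smul (A := mk _ h1.1) h1 hεpos.le)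
      · have := min_le_left δ 1
        linarith
      · have := min_le_right δ 1
        linarith
    have hAB : ∀ A ∈ C, tr A B = 0 := by
      intro A hA
      rw [← hcompA A hA, tr_comp, hB, tr_zero_right]
    have h5 := hD (Z0 + Q + (δ' / s) • B) ⟨hpos, fun A hA => by
      rw [tr_add_right, tr_smul_right, hAB A hA, mul_zero, add_zero]
      exact hmemQ.2 A hA⟩ (by
      rw [tr_add_right, tr_smul_right, hAB X hX, mul_zero, add_zero, hbase X hX, hZ0.2.2.2])
    rw [tr_add_right, hDQ, zero_add, tr_smul_right] at h5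
    exact (mul_eq_zero.1 h5).resolve_left hεpos.ne'
  have hDP : comp P D = D := by
    have h1 : comp P (D - comp P D) = 0 := by rw [map_sub, comp_comp hP, sub_self]
    have h2 := hB _ h1
    have h3 : tr (comp P D) (D - comp P D) = 0 := by rw [tr_comp, h1, tr_zero_right]
    have h4 : tr (D - comp P D) (D - comp P D) = 0 := by
      rw [tr_sub_left, h2, h3, sub_zero]
    exact (sub_eq_zero.1 (eq_zero_of_tr_self h4)).symm
  refine eq_zero_of_orth hC hc hP hcP hPA hX hvert hDP ?_ ?_
  · intro Z hZ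
    exact hD Z ⟨hZ.1, hZ.2.2.1⟩ hZ.2.2.2
  · intro W hW hPW hXW
    obtain ⟨s, hs, h1, _⟩ := exists_bound (herm W)
    have hεpos : 0 < δ / s := by positivity
    have hpos : Pos (Z0 - (δ / s) • W) := by
      have h2 : Z0 - (δ / s) • W = (Z0 - δ • P) + (δ / s) • (s • P - W) := by
        rw [smul_sub, smul_smul, div_mul_cancel₀ _ hs.ne']
        abel
      have h3 : s • P - W = comp P (mk (s • (1 : Mt n) - (W : Mt n)) h1.1) := by
        have h4 : (mk (s • (1 : Mt n) - (W : Mt n)) h1.1 : H n) = s • one - W := rfl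
        have h5 : comp P one = P := by
          apply Subtype.ext
          rw [comp_coe]
          change (P : Mt n) * 1 * (P : Mt n) = P
          rw [Matrix.mul_one, hP]
        rw [h4, map_sub, map_smul, h5, hPW]
      rw [h2, h3]
      exact hle.add ((comp_pos P (G := mk _ h1.1) h1).smul hεpos.le)
    have hXW' : tr X W = 0 := by
      unfold tr
      rw [hXW]
      simp
    have h5 := hD (Z0 - (δ / s) • W) ⟨hpos, fun A hA => by
      rw [tr_sub_right, tr_smul_right]
      have h6 := hZ0.2.2.1 A hA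
      have h7 := mul_nonneg hεpos.le (tr_nonneg (hC.pos A hA) hW)
      linarith⟩ (by rw [tr_sub_right, tr_smul_right, hXW', mul_zero, sub_zero, hZ0.2.2.2])
    have h6 := hD Z0 ⟨hZ0.1, hZ0.2.2.1⟩ hZ0.2.2.2
    rw [tr_sub_right, h6, tr_smul_right, zero_sub, neg_eq_zero] at h5
    exact (mul_eq_zero.1 h5).resolve_left hεpos.ne'

end Pool.Agent.X156.CC
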