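import Mathlib

/-!
# Operator convex corners: definitions
-/

set_option autoImplicit false

open scoped ComplexOrder

namespace Pool.Agent.X156.CC

/-- The real vector space `H_n` of the Hermitian complex `n × n` matrices (with its usual
topology). -/
abbrev H (n : ℕ) : Type := selfAdjoint.submodule ℝ (Matrix (Fin n) (Fin n) ℂ)

/-- The pairing `Tr (A B)`. -/
noncomputable def tr {n : ℕ} (A B : H n) : ℝ :=
  ((A : Matrix (Fin n) (Fin n) ℂ) * (B : Matrix (Fin n) (Fin n) ℂ)).trace.re

/-- `A` is positive semidefinite. -/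
def Pos {n : ℕ} (A : H n) : Prop := (A : Matrix (Fin n) (Fin n) ℂ).PosSemidef

/-- A convex corner: a nonempty closed convex hereditary set of positive semidefinite matrices. -/
structure IsCorner {n : ℕ} (C : Set (H n)) : Prop where
  nonempty : C.Nonempty
  closed : IsClosed C
  convex : Convex ℝ C
  pos : ∀ A ∈ C, Pos A
  hereditary : ∀ A ∈ C, ∀ B, Pos B → Pos (A - B) → B ∈ C

/-- The anti-blocker of `C`. -/
def antiblocker {n : ℕ} (C : Set (H n)) : Set (H n) :=
  {Z | Pos Z ∧ ∀ X ∈ C, tr X Z ≤ 1}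

/-- The hyperplane `{X | Tr (X Y) = α}` supports `C` at `T`. -/
def Supports {n : ℕ} (Y : H n) (α : ℝ) (C T : Set (H n)) : Prop :=
  (∀ X ∈ C, tr X Y ≤ α) ∧ ∀ X ∈ T, tr X Y = α

/-- `X` is a vertex of `C`: a boundary point of `C` (in `H_n`) such that the supporting hyperplanes
of `C` at `X` intersect exactly in `X`. -/
def IsVertex {n : ℕ} (C : Set (H n)) (X : H n) : Prop :=
  X ∈ C ∧ X ∈ frontier C ∧ {X' | ∀ Y α, Supports Y α C {X} → tr X' Y = α} = {X}

/-- `F` is a facet of `C`: a nonempty set `{X ∈ C | Tr (X Y) = α}` cut out by one supporting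
hyperplane, which lies in the boundary of `C` and whose affine hull has dimension `n ^ 2 - 1`. -/
def IsFacet {n : ℕ} (C F : Set (H n)) : Prop :=
  (∃ (Y : H n) (α : ℝ), Y ≠ 0 ∧ Supports Y α C F ∧ F = {X | X ∈ C ∧ tr X Y = α}) ∧
    F.Nonempty ∧ F ⊆ frontier C ∧ Module.finrank ℝ (vectorSpan ℝ F) + 1 = n ^ 2

end Pool.Agent.X156.CC
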