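import Mathlib

/-!
# Positive semidefinite matrices: facts for convex corners
-/

set_option autoImplicit false

open Matrix Unitary
open scoped ComplexOrder MatrixOrder

namespace Pool.Agent.X156.CC

variable {n : ℕ}

/-- matrices -/
abbrev Mt (n : ℕ) : Type := Matrix (Fin n) (Fin n) ℂ

theorem exists_factor {A : Mt n} (hA : A.PosSemidef) : ∃ S : Mt n, A = Sᴴ * S := by
  obtain ⟨B, hB⟩ := CStarAlgebra.nonneg_iff_eq_star_mul_self.mp hA.nonneg
  exact ⟨B, hB⟩

theorem trace_mul_nonneg {A B : Mt n} (hA : A.PosSemidef) (hB : B.PosSemidef) :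
    0 ≤ (A * B).trace := by
  obtain ⟨S, rfl⟩ := exists_factor hA
  rw [Matrix.mul_assoc, Matrix.trace_mul_comm]
  exact (hB.mul_mul_conjTranspose_same S).trace_nonneg

theorem trace_re_nonneg {A B : Mt n} (hA : A.PosSemidef) (hB : B.PosSemidef) :
    0 ≤ (A * B).trace.re := (Complex.le_def.1 (trace_mul_nonneg hA hB)).1

theorem mul_eq_zero_of_trace {A B : Mt n} (hA : A.PosSemidef) (hB : B.PosSemidef)
    (h : (A * B).trace.re = 0) : A * B = 0 := by
  have h0 : (A * B).trace = 0 := by
    have h1 := Complex.le_def.1 (trace_mul_nonneg hA hB)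
    apply Complex.ext
    · exact h
    · exact h1.2.symm
  obtain ⟨S, rfl⟩ := exists_factor hA
  obtain ⟨T, rfl⟩ := exists_factor hB
  rw [Matrix.mul_assoc, Matrix.trace_mul_comm] at h0
  have h2 := ((posSemidef_conjTranspose_mul_self T).mul_mul_conjTranspose_same S).trace_eq_zero_iff.1
    h0
  have h3 : (T * Sᴴ)ᴴ * (T * Sᴴ) = 0 := by
    rw [conjTranspose_mul, conjTranspose_conjTranspose]
    simpa only [Matrix.mul_assoc] using h2
  have h4 : T * Sᴴ = 0 := conjTranspose_mul_self_eq_zero.1 h3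
  have h5 : S * Tᴴ = 0 := by
    have := congrArg conjTranspose h4
    rwa [conjTranspose_mul, conjTranspose_conjTranspose, conjTranspose_zero] at this
  calc Sᴴ * S * (Tᴴ * T) = Sᴴ * (S * Tᴴ) * T := by simp only [Matrix.mul_assoc]
    _ = 0 := by rw [h5, Matrix.mul_zero, Matrix.zero_mul]

/-- diagonalization -/
theorem exists_diag {A : Mt n} (hA : A.IsHermitian) :
    ∃ (U : Mt n) (l : Fin n → ℝ), U * Uᴴ = 1 ∧ Uᴴ * U = 1 ∧
      A = U * diagonal (fun i => (l i : ℂ)) * Uᴴ := by
  refine ⟨(hA.eigenvectorUnitary : Mt n), hA.eigenvalues, ?_, ?_, ?_⟩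
  · have := (hA.eigenvectorUnitary).2.2
    exact this
  · have := (hA.eigenvectorUnitary).2.1
    exact this
  · have := hA.spectral_theorem
    rw [conjStarAlgAut_apply] at this
    exact this

/-- functional calculus of a diagonalization -/
theorem fc_mul {U : Mt n} (hU : Uᴴ * U = 1) (f g : Fin n → ℝ) :
    (U * diagonal (fun i => (f i : ℂ)) * Uᴴ) * (U * diagonal (fun i => (g i : ℂ)) * Uᴴ) =
      U * diagonal (fun i => ((f i * g i : ℝ) : ℂ)) * Uᴴ := by
  calc (U * diagonal (fun i => (f i : ℂ)) * Uᴴ) * (U * diagonal (fun i => (g i : ℂ)) * Uᴴ)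
      = U * diagonal (fun i => (f i : ℂ)) * (Uᴴ * U) * diagonal (fun i => (g i : ℂ)) * Uᴴ := by
        simp only [Matrix.mul_assoc]
    _ = U * diagonal (fun i => ((f i * g i : ℝ) : ℂ)) * Uᴴ := by
        rw [hU, Matrix.mul_one, Matrix.mul_assoc U, diagonal_mul_diagonal]
        congr 3
        funext i
        push_cast
        rfl

theorem fc_hermitian (U : Mt n) (f : Fin n → ℝ) :
    (U * diagonal (fun i => (f i : ℂ)) * Uᴴ).IsHermitian := by
  unfold IsHermitian
  rw [conjTranspose_mul, conjTranspose_mul, conjTranspose_conjTranspose, diagonal_conjTranspose,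
    Matrix.mul_assoc]
  congr 3
  funext i
  simp

theorem fc_pos (U : Mt n) {f : Fin n → ℝ} (hf : ∀ i, 0 ≤ f i) :
    (U * diagonal (fun i => (f i : ℂ)) * Uᴴ).PosSemidef := by
  apply PosSemidef.mul_mul_conjTranspose_same
  rw [posSemidef_diagonal_iff]
  intro i
  exact_mod_cast hf i

theorem fc_sub (U : Mt n) (f g : Fin n → ℝ) :
    U * diagonal (fun i => (f i : ℂ)) * Uᴴ - U * diagonal (fun i => (g i : ℂ)) * Uᴴ =
      U * diagonal (fun i => ((f i - g i : ℝ) : ℂ)) * Uᴴ := by
  rw [← Matrix.sub_mul, ← Matrix.mul_sub]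
  congr 2
  ext i j
  by_cases h : i = j
  · subst h
    simp
  · simp [h]

/-- the support projection -/
theorem exists_support {A : Mt n} (hA : A.PosSemidef) :
    ∃ (P : Mt n) (c : ℝ), 0 < c ∧ P.IsHermitian ∧ P * P = P ∧ P * A = A ∧
      (A - c • P).PosSemidef := by
  obtain ⟨U, l, hU, hU', hAU⟩ := exists_diag hA.1
  have hl : ∀ i, 0 ≤ l i := by
    have h1 : (Uᴴ * A * U).PosSemidef := hA.conjTranspose_mul_mul_same U
    have h2 : Uᴴ * A * U = diagonal (fun i => (l i : ℂ)) := by
      rw [hAU]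
      calc Uᴴ * (U * diagonal (fun i => (l i : ℂ)) * Uᴴ) * U
          = (Uᴴ * U) * diagonal (fun i => (l i : ℂ)) * (Uᴴ * U) := by
            simp only [Matrix.mul_assoc]
        _ = _ := by rw [hU', Matrix.one_mul, Matrix.mul_one]
    rw [h2, posSemidef_diagonal_iff] at h1
    intro i
    exact_mod_cast h1 i
  -- the least positive eigenvalue
  obtain ⟨c, hc, hcl⟩ : ∃ c : ℝ, 0 < c ∧ ∀ i, l i ≠ 0 → c ≤ l i := by
    rcases isEmpty_or_nonempty (Fin n) with h | h
    · exact ⟨1, one_pos, fun i => h.elim i⟩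
    · obtain ⟨i0, hi0⟩ := Finite.exists_min fun i => if l i = 0 then (1 : ℝ) else l i
      refine ⟨if l i0 = 0 then 1 else l i0, ?_, fun i hi => ?_⟩
      · split_ifs with h1
        · exact one_pos
        · exact lt_of_le_of_ne (hl i0) (Ne.symm h1)
      · have := hi0 i
        rw [if_neg hi] at this
        exact this
  let f : Fin n → ℝ := fun i => if l i = 0 then 0 else 1
  refine ⟨U * diagonal (fun i => (f i : ℂ)) * Uᴴ, c, hc, fc_hermitian U f, ?_, ?_, ?_⟩
  · rw [fc_mul hU']
    congr 3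
    funext i
    simp only [f]
    split_ifs <;> simp
  · rw [hAU, fc_mul hU']
    congr 3
    funext i
    simp only [f]
    split_ifs with h
    · simp [h]
    · simp
  · have h1 : c • (U * diagonal (fun i => (f i : ℂ)) * Uᴴ) =
        U * diagonal (fun i => ((c * f i : ℝ) : ℂ)) * Uᴴ := by
      rw [← Matrix.smul_mul, ← Matrix.mul_smul]
      congr 2
      ext i j
      by_cases h : i = j
      · subst h
        simp
      · simp [h]
    rw [h1, hAU, fc_sub]
    apply fc_pos
    intro i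
    simp only [f]
    split_ifs with h
    · rw [h]
      simp
    · have := hcl i h
      linarith

/-- Hermitian matrices are bounded by multiples of the identity. -/
theorem exists_bound {A : Mt n} (hA : A.IsHermitian) :
    ∃ t : ℝ, 0 < t ∧ (t • (1 : Mt n) - A).PosSemidef ∧ (t • (1 : Mt n) + A).PosSemidef := by
  obtain ⟨U, l, hU, hU', hAU⟩ := exists_diag hA
  obtain ⟨t, ht, htl⟩ : ∃ t : ℝ, 0 < t ∧ ∀ i, |l i| ≤ t := by
    refine ⟨1 + ∑ i, |l i|, by positivity, fun i => ?_⟩
    have := Finset.single_le_sum (f := fun i => |l i|) (fun _ _ => abs_nonneg _)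
      (Finset.mem_univ i)
    linarith
  have h1 : (t • (1 : Mt n)) = U * diagonal (fun _ => ((t : ℝ) : ℂ)) * Uᴴ := by
    have h2 : (diagonal (fun _ : Fin n => ((t : ℝ) : ℂ)) : Mt n) = t • (1 : Mt n) := by
      ext i j
      by_cases h : i = j
      · subst h
        simp
      · simp [h]
    rw [h2, Matrix.mul_smul, Matrix.smul_mul, Matrix.mul_one, hU]
  refine ⟨t, ht, ?_, ?_⟩
  · rw [h1, hAU, fc_sub]
    apply fc_pos
    intro i
    have := (abs_le.1 (htl i)).2
    linarith
  · have h3 : A = -(U * diagonal (fun i => ((-l i : ℝ) : ℂ)) * Uᴴ) := by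
      rw [hAU, ← Matrix.neg_mul, ← Matrix.mul_neg]
      congr 2
      ext i j
      by_cases h : i = j
      · subst h
        simp
      · simp [h]
    rw [h1, h3, ← sub_eq_add_neg, fc_sub]
    apply fc_pos
    intro i
    have := (abs_le.1 (htl i)).1
    linarith

end Pool.Agent.X156.CC
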