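import Pool.Agent.X156.CC.Defs
import Pool.Agent.X156.CC.Mat

/-!
# The trace form on Hermitian matrices
-/

set_option autoImplicit false

open Matrix
open scoped ComplexOrder MatrixOrder

namespace Pool.Agent.X156.CC

variable {n : ℕ}

theorem herm (A : H n) : (A : Mt n).IsHermitian := A.2

/-- a Hermitian matrix as an element of `H n` -/
def mk (A : Mt n) (hA : A.IsHermitian) : H n := ⟨A, hA⟩

@[simp] theorem coe_mk (A : Mt n) (hA : A.IsHermitian) : ((mk A hA : H n) : Mt n) = A := rfl

theorem tr_comm (A B : H n) : tr A B = tr B A := by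
  unfold tr
  rw [Matrix.trace_mul_comm]

theorem tr_add_left (A B C : H n) : tr (A + B) C = tr A C + tr B C := by
  unfold tr
  rw [Submodule.coe_add, Matrix.add_mul, Matrix.trace_add, Complex.add_re]

theorem tr_smul_left (t : ℝ) (A C : H n) : tr (t • A) C = t * tr A C := by
  unfold tr
  rw [Submodule.coe_smul, Matrix.smul_mul, Matrix.trace_smul]
  simp

theorem tr_add_right (A B C : H n) : tr A (B + C) = tr A B + tr A C := by
  rw [tr_comm, tr_add_left, tr_comm B, tr_comm C]

theorem tr_smul_right (t : ℝ) (A C : H n) : tr A (t • C) = t * tr A C := by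
  rw [tr_comm, tr_smul_left, tr_comm C]

/-- the functional `tr (·) B` -/
noncomputable def trL (B : H n) : H n →ₗ[ℝ] ℝ where
  toFun A := tr A B
  map_add' A A' := tr_add_left A A' B
  map_smul' t A := tr_smul_left t A B

theorem trL_apply (A B : H n) : trL B A = tr A B := rfl

theorem tr_sub_left (A B C : H n) : tr (A - B) C = tr A C - tr B C := map_sub (trL C) A B

theorem tr_neg_left (A C : H n) : tr (-A) C = -tr A C := map_neg (trL C) A

theorem tr_zero_left (C : H n) : tr 0 C = 0 := map_zero (trL C)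

theorem tr_sub_right (A B C : H n) : tr A (B - C) = tr A B - tr A C := by
  rw [tr_comm, tr_sub_left, tr_comm B, tr_comm C]

theorem tr_zero_right (C : H n) : tr C 0 = 0 := by rw [tr_comm, tr_zero_left]

theorem tr_self_nonneg (A : H n) : 0 ≤ tr A A := by
  unfold tr
  have h := posSemidef_conjTranspose_mul_self (A : Mt n)
  rw [herm A] at h
  exact (Complex.le_def.1 h.trace_nonneg).1

theorem eq_zero_of_tr_self {A : H n} (h : tr A A = 0) : A = 0 := by
  unfold tr at h
  have h1 := posSemidef_conjTranspose_mul_self (A : Mt n)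
  rw [herm A] at h1
  have h2 : ((A : Mt n) * (A : Mt n)).trace = 0 := by
    have h3 := Complex.le_def.1 h1.trace_nonneg
    exact Complex.ext h h3.2.symm
  have h4 := h1.trace_eq_zero_iff.1 h2
  have h5 : (A : Mt n)ᴴ * (A : Mt n) = 0 := by rw [herm A]; exact h4
  exact Subtype.ext (conjTranspose_mul_self_eq_zero.1 h5)

theorem tr_self_pos {A : H n} (h : A ≠ 0) : 0 < tr A A :=
  lt_of_le_of_ne (tr_self_nonneg A) fun h0 => h (eq_zero_of_tr_self h0.symm)

theorem eq_zero_of_tr {A : H n} (h : ∀ B, tr A B = 0) : A = 0 := eq_zero_of_tr_self (h A)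

/-- every functional is given by a matrix -/
theorem exists_rep (φ : H n →ₗ[ℝ] ℝ) : ∃ Y : H n, ∀ A, φ A = tr A Y := by
  let Ψ : H n →ₗ[ℝ] (H n →ₗ[ℝ] ℝ) :=
    { toFun := fun B => trL B
      map_add' := fun B C => by
        ext A
        exact tr_add_right A B C
      map_smul' := fun t B => by
        ext A
        exact tr_smul_right t A B }
  have hinj : Function.Injective Ψ := by
    rw [← LinearMap.ker_eq_bot, LinearMap.ker_eq_bot']
    intro B hB
    apply eq_zero_of_tr
    intro A
    rw [tr_comm]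
    exact LinearMap.congr_fun hB A
  have hsurj : Function.Surjective Ψ := by
    refine (LinearMap.injective_iff_surjective_of_finrank_eq_finrank ?_).1 hinj
    exact (Subspace.dual_finrank_eq (K := ℝ) (V := H n)).symm
  obtain ⟨Y, hY⟩ := hsurj φ
  exact ⟨Y, fun A => by rw [← hY]; rfl⟩

theorem tr_nonneg {A B : H n} (hA : Pos A) (hB : Pos B) : 0 ≤ tr A B := trace_re_nonneg hA hB

theorem mul_eq_zero_of_tr {A B : H n} (hA : Pos A) (hB : Pos B) (h : tr A B = 0) :
    (A : Mt n) * (B : Mt n) = 0 := mul_eq_zero_of_trace hA hB h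

theorem Pos.add {A B : H n} (hA : Pos A) (hB : Pos B) : Pos (A + B) := PosSemidef.add hA hB

theorem Pos.smul {A : H n} (hA : Pos A) {t : ℝ} (ht : 0 ≤ t) : Pos (t • A) :=
  PosSemidef.smul hA ht

theorem Pos.zero : Pos (0 : H n) := PosSemidef.zero

/-- the dual cone of the positive semidefinite matrices -/
theorem pos_of_tr {Y : H n} (h : ∀ A, Pos A → 0 ≤ tr A Y) : Pos Y := by
  refine PosSemidef.of_dotProduct_mulVec_nonneg (herm Y) fun x => ?_
  have hx : (vecMulVec x (star x)).PosSemidef := posSemidef_vecMulVec_self_star x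
  have h1 := h (mk _ hx.1) hx
  unfold tr at h1
  rw [coe_mk, vecMulVec_mul, trace_vecMulVec] at h1
  have h2 : x ⬝ᵥ (star x ᵥ* (Y : Mt n)) = star x ⬝ᵥ ((Y : Mt n) *ᵥ x) := by
    rw [dotProduct_comm, dotProduct_mulVec]
  rw [h2] at h1
  have h3 : (star x ⬝ᵥ ((Y : Mt n) *ᵥ x)).im = 0 := (herm Y).im_star_dotProduct_mulVec_self x
  exact Complex.le_def.2 ⟨h1, h3.symm⟩

end Pool.Agent.X156.CC
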