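import Pool.Agent.X156.CC.Form

/-!
# Compression, maximal projections, and Lagrange multipliers
-/

set_option autoImplicit false

open Matrix
open scoped ComplexOrder MatrixOrder

namespace Pool.Agent.X156.CC

variable {n : ℕ}

/-- the compression `G ↦ P G P` -/
def comp (P : H n) : H n →ₗ[ℝ] H n where
  toFun G := mk ((P : Mt n) * (G : Mt n) * (P : Mt n)) (by
    have h := isHermitian_conjTranspose_mul_mul (P : Mt n) (herm G)
    rwa [herm P] at h)
  map_add' G G' := by
    apply Subtype.ext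
    change (P : Mt n) * ((G + G' : H n) : Mt n) * (P : Mt n) =
      (P : Mt n) * (G : Mt n) * (P : Mt n) + (P : Mt n) * (G' : Mt n) * (P : Mt n)
    rw [Submodule.coe_add, Matrix.mul_add, Matrix.add_mul]
  map_smul' t G := by
    apply Subtype.ext
    change (P : Mt n) * ((t • G : H n) : Mt n) * (P : Mt n) =
      t • ((P : Mt n) * (G : Mt n) * (P : Mt n))
    rw [Submodule.coe_smul, Matrix.mul_smul, Matrix.smul_mul]

theorem comp_coe (P G : H n) :
    ((comp P G : H n) : Mt n) = (P : Mt n) * (G : Mt n) * (P : Mt n) := rfl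

theorem comp_pos (P : H n) {G : H n} (hG : Pos G) : Pos (comp P G) := by
  have h := PosSemidef.conjTranspose_mul_mul_same hG (P : Mt n)
  rw [herm P] at h
  exact h

theorem tr_comp (P A B : H n) : tr (comp P A) B = tr A (comp P B) := by
  unfold tr
  rw [comp_coe, comp_coe]
  rw [Matrix.mul_assoc, Matrix.mul_assoc, Matrix.trace_mul_comm]
  simp only [Matrix.mul_assoc]

theorem pos_of_idem {P : H n} (hP : (P : Mt n) * (P : Mt n) = P) : Pos P := by
  have h := posSemidef_conjTranspose_mul_self (P : Mt n)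
  rw [herm P, hP] at h
  exact h

theorem comp_self {P : H n} (hP : (P : Mt n) * (P : Mt n) = P) : comp P P = P := by
  apply Subtype.ext
  rw [comp_coe, hP, hP]

theorem comp_comp {P : H n} (hP : (P : Mt n) * (P : Mt n) = P) (G : H n) :
    comp P (comp P G) = comp P G := by
  apply Subtype.ext
  rw [comp_coe, comp_coe]
  calc (P : Mt n) * ((P : Mt n) * (G : Mt n) * (P : Mt n)) * (P : Mt n)
      = ((P : Mt n) * (P : Mt n)) * (G : Mt n) * ((P : Mt n) * (P : Mt n)) := by
        simp only [Matrix.mul_assoc]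
    _ = _ := by rw [hP]

/-- the adjoint of an identity `P A = A` -/
theorem mul_right_of_left {P A : H n} (h : (P : Mt n) * (A : Mt n) = A) :
    (A : Mt n) * (P : Mt n) = A := by
  have := congrArg conjTranspose h
  rwa [conjTranspose_mul, herm P, herm A] at this

theorem comp_eq_of_left {P A : H n} (h : (P : Mt n) * (A : Mt n) = A) : comp P A = A := by
  apply Subtype.ext
  rw [comp_coe, h, mul_right_of_left h]

theorem left_of_comp {P A : H n} (hP : (P : Mt n) * (P : Mt n) = P) (h : comp P A = A) :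
    (P : Mt n) * (A : Mt n) = A := by
  have h1 := congrArg Subtype.val h
  rw [← h1]
  change (P : Mt n) * ((P : Mt n) * (A : Mt n) * (P : Mt n)) =
    (P : Mt n) * (A : Mt n) * (P : Mt n)
  rw [← Matrix.mul_assoc, ← Matrix.mul_assoc, hP]

theorem IsCorner.zero_mem {C : Set (H n)} (hC : IsCorner C) : (0 : H n) ∈ C := by
  obtain ⟨A, hA⟩ := hC.nonempty
  exact hC.hereditary A hA 0 Pos.zero (by rw [sub_zero]; exact hC.pos A hA)

/-- the dimension of the kernel -/
noncomputable def kd (A : H n) : ℕ := Module.finrank ℂ (LinearMap.ker (mulVecLin (A : Mt n)))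

theorem mem_ker {A : H n} {x : Fin n → ℂ} :
    x ∈ LinearMap.ker (mulVecLin (A : Mt n)) ↔ (A : Mt n) *ᵥ x = 0 := by
  rw [LinearMap.mem_ker, mulVecLin_apply]

theorem ker_of_sum {A B : H n} (hA : Pos A) (hB : Pos B) {a b : ℝ} (ha : 0 < a) (hb : 0 < b)
    {x : Fin n → ℂ} (h : ((a • A + b • B : H n) : Mt n) *ᵥ x = 0) :
    (A : Mt n) *ᵥ x = 0 ∧ (B : Mt n) *ᵥ x = 0 := by
  have h1 : star x ⬝ᵥ ((a • A + b • B : H n) : Mt n) *ᵥ x = 0 := by rw [h, dotProduct_zero]
  rw [Submodule.coe_add, Submodule.coe_smul, Submodule.coe_smul, add_mulVec, smul_mulVec,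
    smul_mulVec, dotProduct_add, dotProduct_smul, dotProduct_smul] at h1
  have h2 := PosSemidef.dotProduct_mulVec_nonneg hA x
  have h3 := PosSemidef.dotProduct_mulVec_nonneg hB x
  obtain ⟨h2r, h2i⟩ := Complex.le_def.1 h2
  obtain ⟨h3r, h3i⟩ := Complex.le_def.1 h3
  have h4 := congrArg Complex.re h1
  simp only [Complex.add_re, Complex.real_smul, Complex.mul_re, Complex.ofReal_re,
    Complex.ofReal_im, zero_mul, sub_zero, Complex.zero_re] at h4 h2r h3r
  simp only [Complex.zero_im] at h2i h3i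
  have h5 := mul_nonneg ha.le h2r
  have h6 := mul_nonneg hb.le h3r
  have h7 : (star x ⬝ᵥ (A : Mt n) *ᵥ x).re = 0 := by
    have : a * (star x ⬝ᵥ (A : Mt n) *ᵥ x).re = 0 := by linarith
    exact (mul_eq_zero.1 this).resolve_left ha.ne'
  have h8 : (star x ⬝ᵥ (B : Mt n) *ᵥ x).re = 0 := by
    have : b * (star x ⬝ᵥ (B : Mt n) *ᵥ x).re = 0 := by linarith
    exact (mul_eq_zero.1 this).resolve_left hb.ne'
  exact ⟨(PosSemidef.dotProduct_mulVec_zero_iff hA x).1 (Complex.ext h7 h2i.symm),
    (PosSemidef.dotProduct_mulVec_zero_iff hB x).1 (Complex.ext h8 h3i.symm)⟩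

/-- the kernel of the smaller one of two positive matrices is larger -/
theorem ker_of_le {A B : H n} (hA : Pos A) {c : ℝ} (hc : 0 < c) (h : Pos (B - c • A))
    {x : Fin n → ℂ} (hx : (B : Mt n) *ᵥ x = 0) : (A : Mt n) *ᵥ x = 0 := by
  have h1 : ((c • A + (1 : ℝ) • (B - c • A) : H n) : Mt n) *ᵥ x = 0 := by
    rw [one_smul, add_sub_cancel, hx]
  exact (ker_of_sum hA h hc one_pos h1).1

/-- the support projection as an element of `H n` -/
theorem exists_supp {A : H n} (hA : Pos A) :
    ∃ (P : H n) (c : ℝ), 0 < c ∧ (P : Mt n) * (P : Mt n) = P ∧ (P : Mt n) * (A : Mt n) = A ∧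
      Pos (A - c • P) := by
  obtain ⟨P, c, hc, hP, hPP, hPA, h⟩ := exists_support hA
  exact ⟨mk P hP, c, hc, hPP, hPA, h⟩

theorem mul_eq_of_ker {A P : H n} (hP : (P : Mt n) * (P : Mt n) = P)
    (h : ∀ x, (P : Mt n) *ᵥ x = 0 → (A : Mt n) *ᵥ x = 0) : (A : Mt n) * (P : Mt n) = A := by
  have h1 : ∀ x, ((A : Mt n) * (P : Mt n)) *ᵥ x = (A : Mt n) *ᵥ x := by
    intro x
    have h2 := h (x - (P : Mt n) *ᵥ x) (by
      rw [mulVec_sub, mulVec_mulVec, hP, sub_self])
    rw [mulVec_sub, sub_eq_zero, mulVec_mulVec] at h2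
    exact h2.symm
  exact Matrix.ext_of_mulVec_single fun i => h1 _

/-- a projection of largest rank with a multiple in the corner -/
theorem exists_maxProj {C : Set (H n)} (hC : IsCorner C) :
    ∃ (P : H n) (c : ℝ), 0 < c ∧ (P : Mt n) * (P : Mt n) = P ∧ c • P ∈ C ∧
      ∀ A ∈ C, (P : Mt n) * (A : Mt n) = A := by
  let S : Set ℕ := {k | ∃ (P : H n) (c : ℝ), 0 < c ∧ (P : Mt n) * (P : Mt n) = P ∧ c • P ∈ C ∧
    kd P = k}
  have hS : S.Nonempty := ⟨kd (0 : H n), 0, 1, one_pos, by simp, by
    rw [smul_zero]; exact hC.zero_mem, rfl⟩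
  obtain ⟨P, c, hc, hP, hPC, hk⟩ := Nat.sInf_mem hS
  refine ⟨P, c, hc, hP, hPC, fun A hA => ?_⟩
  have hApos := hC.pos A hA
  set B : H n := (1 / 2 : ℝ) • (c • P) + (1 / 2 : ℝ) • A with hB
  have hBC : B ∈ C := hC.convex hPC hA (by norm_num) (by norm_num) (by norm_num)
  obtain ⟨P', c', hc', hP', hPB, hle⟩ := exists_supp (hC.pos B hBC)
  have hP'pos := pos_of_idem hP'
  have hP'C : c' • P' ∈ C := hC.hereditary B hBC _ (hP'pos.smul hc'.le) hle
  have hmin : kd P ≤ kd P' := by
    rw [hk]
    exact Nat.sInf_le ⟨P', c', hc', hP', hP'C, rfl⟩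
  have hker : ∀ x, (P' : Mt n) *ᵥ x = 0 → (P : Mt n) *ᵥ x = 0 ∧ (A : Mt n) *ᵥ x = 0 := by
    intro x hx
    have h1 : (B : Mt n) *ᵥ x = 0 := by
      rw [← mul_right_of_left hPB, ← mulVec_mulVec, hx, mulVec_zero]
    have h2 := ker_of_sum ((pos_of_idem hP).smul hc.le) hApos (by norm_num) (by norm_num) h1
    refine ⟨?_, h2.2⟩
    have h3 := h2.1
    rw [Submodule.coe_smul, smul_mulVec] at h3
    exact (smul_eq_zero.1 h3).resolve_left hc.ne'
  have hle' : LinearMap.ker (mulVecLin (P' : Mt n)) ≤ LinearMap.ker (mulVecLin (P : Mt n)) := by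
    intro x hx
    rw [mem_ker] at hx ⊢
    exact (hker x hx).1
  have heq := Submodule.eq_of_le_of_finrank_le hle' hmin
  have h4 : (A : Mt n) * (P : Mt n) = A := by
    apply mul_eq_of_ker hP
    intro x hx
    have h5 : x ∈ LinearMap.ker (mulVecLin (P' : Mt n)) := by
      rw [heq, mem_ker]
      exact hx
    exact (hker x (mem_ker.1 h5)).2
  have := congrArg conjTranspose h4
  rwa [conjTranspose_mul, herm P, herm A] at this

/-- the values of the dual problem -/
def vals (C : Set (H n)) (P Y : H n) (m : ℝ) (G : H n) : Set ℝ :=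
  {r | ∃ (t : ℝ) (A D D' : H n), 0 ≤ t ∧ A ∈ C ∧ Pos D ∧ Pos D' ∧
    comp P G = t • A - D - D' ∧ r = t * m - tr D Y}

theorem vals_add {C : Set (H n)} (hC : IsCorner C) {P Y : H n} {m : ℝ} {G G' : H n} {r r' : ℝ}
    (h : r ∈ vals C P Y m G) (h' : r' ∈ vals C P Y m G') : r + r' ∈ vals C P Y m (G + G') := by
  obtain ⟨t, A, D, E, ht, hA, hD, hE, hG, rfl⟩ := h
  obtain ⟨t', A', D', E', ht', hA', hD', hE', hG', rfl⟩ := h'
  obtain ⟨A'', hA'', hAA⟩ : ∃ A'' ∈ C, t • A + t' • A' = (t + t') • A'' := by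
    rcases eq_or_lt_of_le (add_nonneg ht ht') with h0 | h0
    · have h1 : t = 0 := by linarith
      have h2 : t' = 0 := by linarith
      exact ⟨A, hA, by rw [h1, h2]; simp⟩
    · refine ⟨(t / (t + t')) • A + (t' / (t + t')) • A', hC.convex hA hA' (by positivity)
        (by positivity) (by field_simp), ?_⟩
      rw [smul_add, smul_smul, smul_smul, mul_div_cancel₀ _ h0.ne', mul_div_cancel₀ _ h0.ne']
  refine ⟨t + t', A'', D + D', E + E', add_nonneg ht ht', hA'', hD.add hD', hE.add hE', ?_, ?_⟩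
  · rw [map_add, hG, hG', ← hAA]
    abel
  · rw [tr_add_left]
    ring

theorem vals_smul {C : Set (H n)} {P Y : H n} {m : ℝ} {G : H n} {r s : ℝ}
    (hs : 0 ≤ s) (h : r ∈ vals C P Y m G) : s * r ∈ vals C P Y m (s • G) := by
  obtain ⟨t, A, D, E, ht, hA, hD, hE, hG, rfl⟩ := h
  refine ⟨s * t, A, s • D, s • E, mul_nonneg hs ht, hA, hD.smul hs, hE.smul hs, ?_, ?_⟩
  · rw [map_smul, hG, smul_sub, smul_sub, smul_smul]
  · rw [tr_smul_left]
    ring

/-- **Lagrange multipliers.** A functional `Y` whose maximum on the corner `C` is attained at `X`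
is, after compression, the difference of a positive one with the same property and of a positive
one that vanishes at `X`. -/
theorem decompose {C : Set (H n)} (hC : IsCorner C) {P : H n} {c : ℝ} (hc : 0 < c)
    (hP : (P : Mt n) * (P : Mt n) = P) (hcP : c • P ∈ C)
    (hPA : ∀ A ∈ C, (P : Mt n) * (A : Mt n) = A) {X Y : H n} (hX : X ∈ C)
    (hY : ∀ A ∈ C, tr A Y ≤ tr X Y) :
    ∃ Yp W : H n, Pos Yp ∧ Pos W ∧ comp P Yp = Yp ∧ comp P W = W ∧ comp P Y = Yp - W ∧
      (X : Mt n) * (W : Mt n) = 0 ∧ (∀ A ∈ C, tr A Yp ≤ tr X Y) ∧ tr X Yp = tr X Y := by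
  set m := tr X Y with hm
  have h0C := hC.zero_mem
  -- elements of `vals 0` are nonnegative
  have hzero : ∀ r ∈ vals C P Y m 0, 0 ≤ r := by
    rintro r ⟨t, A, D, E, ht, hA, hD, hE, hG, rfl⟩
    rw [map_zero] at hG
    rcases eq_or_lt_of_le ht with h0 | h0
    · rw [← h0, zero_smul, zero_sub] at hG
      have h1 : D = 0 := by
        have h2 : tr D D = -tr E D := by
          rw [← tr_neg_left]
          congr 1
          have : D = -E := by
            have := congrArg (fun z => z + D) hG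
            simp only [zero_add] at this
            rw [this]
            abel
          exact this
        have h3 := tr_self_nonneg D
        have h4 := tr_nonneg hE hD
        exact eq_zero_of_tr_self (by linarith)
      rw [← h0, h1, tr_zero_left]
      simp
    · have h1 : t⁻¹ • D ∈ C := by
        refine hC.hereditary A hA _ (hD.smul (inv_nonneg.2 ht)) ?_
        have h2 : A - t⁻¹ • D = t⁻¹ • E := by
          have h3 : t • A = D + E := by
            have := congrArg (fun z => z + (D + E)) hG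
            simp only [zero_add] at this
            rw [this]
            abel
          have h4 := congrArg (fun z => t⁻¹ • z) h3
          simp only [smul_smul, inv_mul_cancel₀ h0.ne', one_smul, smul_add] at h4
          rw [h4]
          abel
        rw [h2]
        exact hE.smul (inv_nonneg.2 ht)
      have h2 := hY _ h1
      rw [tr_smul_left] at h2
      have h3 : tr D Y ≤ t * m := by
        have := mul_le_mul_of_nonneg_left h2 ht
        rwa [← mul_assoc, mul_inv_cancel₀ h0.ne', one_mul] at this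
      linarith
  have hne : ∀ G, (vals C P Y m G).Nonempty := by
    intro G
    obtain ⟨s, hs, h1, _⟩ := exists_bound (herm G)
    refine ⟨_, s / c, c • P, 0, (s / c) • (c • P) - comp P G, by positivity, hcP, Pos.zero, ?_,
      ?_, rfl⟩
    · have h2 : (s / c) • (c • P) - comp P G =
          comp P (mk (s • (1 : Mt n) - (G : Mt n)) h1.1) := by
        apply Subtype.ext
        rw [comp_coe, coe_mk, smul_smul, div_mul_cancel₀ _ hc.ne']
        change s • (P : Mt n) - (P : Mt n) * (G : Mt n) * (P : Mt n) = _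
        rw [Matrix.mul_sub, Matrix.sub_mul, Matrix.mul_smul, Matrix.smul_mul, Matrix.mul_one, hP]
      rw [h2]
      exact comp_pos P h1
    · abel
  have hbdd : ∀ G, BddBelow (vals C P Y m G) := by
    intro G
    obtain ⟨r', hr'⟩ := hne (-G)
    refine ⟨-r', fun r hr => ?_⟩
    have h1 := vals_add hC hr hr'
    rw [add_neg_cancel] at h1
    have := hzero _ h1
    linarith
  let N : H n → ℝ := fun G => sInf (vals C P Y m G)
  have hNle : ∀ {G : H n} {r : ℝ}, r ∈ vals C P Y m G → N G ≤ r := fun {G r} hr =>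
    csInf_le (hbdd G) hr
  obtain ⟨φ, _, hφN⟩ := exists_extension_of_le_sublinear (⟨⊥, 0⟩ : H n →ₗ.[ℝ] ℝ) N
    (fun s hs G => by
      apply le_antisymm
      · have h1 : s⁻¹ * N (s • G) ≤ N G := by
          apply le_csInf (hne G)
          intro r hr
          rw [inv_mul_le_iff₀ hs]
          exact hNle (vals_smul hs.le hr)
        rwa [inv_mul_le_iff₀ hs] at h1
      · apply le_csInf (hne _)
        intro r hr
        have h1 := vals_smul (inv_nonneg.2 hs.le) hr
        rw [smul_smul, inv_mul_cancel₀ hs.ne', one_smul] at h1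
        have h2 := hNle h1
        rwa [← div_eq_inv_mul, le_div_iff₀ hs, mul_comm] at h2)
    (fun G G' => by
      have h1 : N (G + G') - N G' ≤ N G := by
        apply le_csInf (hne G)
        intro r hr
        have h2 : N (G + G') - r ≤ N G' := by
          apply le_csInf (hne G')
          intro r' hr'
          have := hNle (vals_add hC hr hr')
          linarith
        linarith
      linarith)
    (fun x => by
      have hx : (x : H n) = 0 := x.2
      change (0 : ℝ) ≤ N x
      rw [hx]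
      exact le_csInf (hne 0) hzero)
  -- properties of `φ`
  have hφC : ∀ A ∈ C, φ A ≤ m := by
    intro A hA
    refine (hφN A).trans (hNle ⟨1, A, 0, 0, zero_le_one, hA, Pos.zero, Pos.zero, ?_, ?_⟩)
    · rw [comp_eq_of_left (hPA A hA)]
      simp
    · rw [tr_zero_left]
      ring
  have hφD : ∀ D, Pos D → tr D (comp P Y) ≤ φ D := by
    intro D hD
    have h1 : φ (-D) ≤ -tr D (comp P Y) := by
      refine (hφN (-D)).trans (hNle ⟨0, 0, comp P D, 0, le_rfl, h0C, comp_pos P hD, Pos.zero, ?_,
        ?_⟩)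
      · rw [map_neg]
        simp
      · rw [tr_comp]
        ring
    rw [map_neg] at h1
    linarith
  have hφD' : ∀ D, Pos D → 0 ≤ φ D := by
    intro D hD
    have h1 : φ (-D) ≤ 0 := by
      refine (hφN (-D)).trans (hNle ⟨0, 0, 0, comp P D, le_rfl, h0C, Pos.zero, comp_pos P hD, ?_,
        ?_⟩)
      · rw [map_neg]
        simp
      · rw [tr_zero_left]
        ring
    rw [map_neg] at h1
    linarith
  have hφB : ∀ B, comp P B = 0 → φ B = 0 := by
    have key : ∀ B, comp P B = 0 → φ B ≤ 0 := by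
      intro B hB
      refine (hφN B).trans (hNle ⟨0, 0, 0, 0, le_rfl, h0C, Pos.zero, Pos.zero, ?_, ?_⟩)
      · rw [hB]
        simp
      · rw [tr_zero_left]
        ring
    intro B hB
    have h1 := key B hB
    have h2 := key (-B) (by rw [map_neg, hB, neg_zero])
    rw [map_neg] at h2
    linarith
  obtain ⟨Yp, hYp⟩ := exists_rep φ
  have hYpP : comp P Yp = Yp := by
    have h1 : comp P (Yp - comp P Yp) = 0 := by rw [map_sub, comp_comp hP, sub_self]
    have h2 : tr (Yp - comp P Yp) Yp = 0 := by rw [← hYp]; exact hφB _ h1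
    have h3 : tr (Yp - comp P Yp) (comp P Yp) = 0 := by
      rw [← tr_comp, h1, tr_zero_left]
    have h4 : tr (Yp - comp P Yp) (Yp - comp P Yp) = 0 := by
      rw [tr_sub_right, h2, h3, sub_zero]
    exact (sub_eq_zero.1 (eq_zero_of_tr_self h4)).symm
  have hYpos : Pos Yp := pos_of_tr fun A hA => by rw [← hYp]; exact hφD' A hA
  have hWpos : Pos (Yp - comp P Y) := pos_of_tr fun A hA => by
    rw [tr_sub_right, ← hYp]
    have := hφD A hA
    linarith
  have hXY : tr X (comp P Y) = m := by
    rw [← tr_comp, comp_eq_of_left (hPA X hX)]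
  have hXW : tr X (Yp - comp P Y) = 0 := by
    apply le_antisymm
    · rw [tr_sub_right, hXY, ← hYp]
      have := hφC X hX
      linarith
    · exact tr_nonneg (hC.pos X hX) hWpos
  refine ⟨Yp, Yp - comp P Y, hYpos, hWpos, hYpP, ?_, by abel, ?_, ?_, ?_⟩
  · rw [map_sub, hYpP, comp_comp hP]
  · exact mul_eq_zero_of_tr (hC.pos X hX) hWpos hXW
  · intro A hA
    rw [← hYp]
    exact hφC A hA
  · rw [tr_sub_right, hXY] at hXW
    linarith

end Pool.Agent.X156.CC
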